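import Pool.Agent.H159.SSq.Stm

/-!
Transfer bound for one Dyck path (job SSQ-DYCK of helper159).
-/

set_option autoImplicit false

namespace Pool.Agent.Q144.SSq

open Finset Pool.Agent.H159.SSq

/-- the path stays nonnegative up to time `t` -/
def Good (t : ℕ) (A : Finset ℕ) : Prop := ∀ s ≤ t, po A s ≤ pu A s

/-- the peaks before time `t` -/
def PKt (t : ℕ) (A : Finset ℕ) : Finset ℕ :=
  (range t).filter fun s => s + 1 < t ∧ s ∈ A ∧ s + 1 ∉ A ∧ po A s < pu A s

open Classical in
/-- the weight of the state at time `t` -/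
noncomputable def hh (κ : ℝ) (t : ℕ) (A : Finset ℕ) : ℝ :=
  if pu A t = po A t then κ ^ 2 else if t - 1 ∈ A then κ else 1

open Classical in
noncomputable def ff (κ : ℝ) (t : ℕ) (A : Finset ℕ) : ℝ :=
  if Good t A then κ ^ (2 * (PKt t A).card) * hh κ t A else 0

section step

variable {κ : ℝ} {t : ℕ} {A : Finset ℕ}

theorem pu_insert_le {s : ℕ} (hs : s ≤ t) : pu (insert t A) s = pu A s :=
  pu_congr fun x hx => by simp [show x ≠ t by omega]

theorem po_insert_le {s : ℕ} (hs : s ≤ t) : po (insert t A) s = po A s :=
  po_congr fun x hx => by simp [show x ≠ t by omega]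

theorem good_insert : Good (t + 1) (insert t A) ↔ Good t A := by
  constructor
  · intro h s hs
    have := h s (by omega)
    rwa [pu_insert_le hs, po_insert_le hs] at this
  · intro h s hs
    rcases Nat.lt_or_ge t s with h1 | h1
    · have h2 : s = t + 1 := by omega
      subst h2
      rw [po_succ, pu_succ, if_pos (mem_insert_self t A), if_pos (mem_insert_self t A),
        pu_insert_le le_rfl, po_insert_le le_rfl]
      have := h t le_rfl
      omega
    · rw [pu_insert_le h1, po_insert_le h1]
      exact h s h1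

theorem good_pop (ht : t ∉ A) : Good (t + 1) A ↔ Good t A ∧ po A t < pu A t := by
  constructor
  · intro h
    refine ⟨fun s hs => h s (by omega), ?_⟩
    have := h (t + 1) le_rfl
    rw [po_succ, pu_succ, if_neg ht, if_neg ht] at this
    omega
  · rintro ⟨h, h0⟩ s hs
    rcases Nat.lt_or_ge t s with h1 | h1
    · have h2 : s = t + 1 := by omega
      subst h2
      rw [po_succ, pu_succ, if_neg ht, if_neg ht]
      omega
    · exact h s h1

theorem PKt_insert : PKt (t + 1) (insert t A) = PKt t A := by
  ext s
  simp only [PKt, mem_filter, mem_range, mem_insert, not_or]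
  constructor
  · rintro ⟨h1, h2, h3, ⟨h4, h5⟩, h6⟩
    have h7 : s + 1 < t := by omega
    rw [pu_insert_le (by omega), po_insert_le (by omega)] at h6
    refine ⟨by omega, h7, h3.resolve_left (by omega), h5, h6⟩
  · rintro ⟨h1, h2, h3, h5, h6⟩
    rw [pu_insert_le (by omega), po_insert_le (by omega)]
    exact ⟨by omega, by omega, Or.inr h3, ⟨by omega, h5⟩, h6⟩

theorem PKt_pop (_ht : t ∉ A) (h : ¬ (1 ≤ t ∧ t - 1 ∈ A ∧ po A (t - 1) < pu A (t - 1))) :
    PKt (t + 1) A = PKt t A := by
  ext s
  simp only [PKt, mem_filter, mem_range]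
  constructor
  · rintro ⟨h1, h2, h3, h5, h6⟩
    rcases Nat.lt_or_ge (s + 1) t with h7 | h7
    · exact ⟨by omega, h7, h3, h5, h6⟩
    · exfalso
      have h8 : s = t - 1 := by omega
      subst h8
      exact h ⟨by omega, h3, h6⟩
  · rintro ⟨h1, h2, h3, h5, h6⟩
    exact ⟨by omega, by omega, h3, h5, h6⟩

theorem PKt_peak (ht : t ∉ A) (h1 : 1 ≤ t) (h2 : t - 1 ∈ A) (h3 : po A (t - 1) < pu A (t - 1)) :
    (PKt (t + 1) A).card = (PKt t A).card + 1 := by
  have h4 : PKt (t + 1) A = insert (t - 1) (PKt t A) := by
    ext s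
    simp only [PKt, mem_filter, mem_range, mem_insert]
    constructor
    · rintro ⟨g1, g2, g3, g5, g6⟩
      rcases Nat.lt_or_ge (s + 1) t with h7 | h7
      · exact Or.inr ⟨by omega, h7, g3, g5, g6⟩
      · exact Or.inl (by omega)
    · rintro (g | ⟨g1, g2, g3, g5, g6⟩)
      · subst g
        have h5 : t - 1 + 1 = t := by omega
        exact ⟨by omega, by omega, h2, by rw [h5]; exact ht, h3⟩
      · exact ⟨by omega, by omega, g3, g5, g6⟩
  rw [h4, card_insert_of_notMem]
  simp only [PKt, mem_filter, mem_range, not_and]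
  omega

theorem hh_insert : hh κ (t + 1) (insert t A) = κ ∨ ¬ Good t A := by
  by_cases h : Good t A
  · left
    have h1 := h t le_rfl
    unfold hh
    rw [po_succ, pu_succ, if_pos (mem_insert_self t A), if_pos (mem_insert_self t A),
      pu_insert_le le_rfl, po_insert_le le_rfl, if_neg (by omega), Nat.add_sub_cancel,
      if_pos (mem_insert_self t A)]
  · exact Or.inr h

theorem step (h0 : 0 < κ) (h1 : κ ≤ 1) (h2 : 1 ≤ κ + κ ^ 2) (hA : A ⊆ range t) :
    ff κ (t + 1) A + ff κ (t + 1) (insert t A) ≤ (1 + κ) * ff κ t A := by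
  have ht : t ∉ A := fun h => by simpa using hA h
  by_cases hg : Good t A
  · have e1 : ff κ (t + 1) (insert t A) = κ ^ (2 * (PKt t A).card) * κ := by
      unfold ff
      rw [if_pos (good_insert.2 hg), PKt_insert, (hh_insert (κ := κ)).resolve_right (not_not.2 hg)]
    have e2 : ff κ t A = κ ^ (2 * (PKt t A).card) * hh κ t A := by
      unfold ff
      rw [if_pos hg]
    rw [e1, e2]
    have hK : 0 < κ ^ (2 * (PKt t A).card) := by positivity
    have hk1 : κ ^ 2 ≤ 1 := pow_le_one₀ h0.le h1
    by_cases hh0 : pu A t = po A t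
    · have e3 : ff κ (t + 1) A = 0 := by
        unfold ff
        rw [if_neg]
        intro h
        have := ((good_pop ht).1 h).2
        omega
      have e4 : hh κ t A = κ ^ 2 := by
        unfold hh
        rw [if_pos hh0]
      rw [e3, e4]
      have h5 : κ ≤ (1 + κ) * κ ^ 2 := by nlinarith
      nlinarith [mul_le_mul_of_nonneg_left h5 hK.le]
    · have hlt : po A t < pu A t := lt_of_le_of_ne (hg t le_rfl) (Ne.symm hh0)
      have hgood : Good (t + 1) A := (good_pop ht).2 ⟨hg, hlt⟩
      have ht1 : 1 ≤ t := by
        rcases Nat.eq_zero_or_pos t with h | h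
        · subst h
          simp [pu] at hlt
        · exact h
      have e3 : ff κ (t + 1) A = κ ^ (2 * (PKt (t + 1) A).card) * hh κ (t + 1) A := by
        unfold ff
        rw [if_pos hgood]
      have e5 : hh κ (t + 1) A = if pu A t = po A t + 1 then κ ^ 2 else 1 := by
        unfold hh
        rw [po_succ, pu_succ, if_neg ht, if_neg ht, add_zero, Nat.add_sub_cancel, if_neg ht]
      rw [e3]
      have hs : t = t - 1 + 1 := by omega
      have hpu : pu A t = pu A (t - 1) + if t - 1 ∈ A then 1 else 0 := by
        conv_lhs => rw [hs]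
        rw [pu_succ]
      have hpo : po A t = po A (t - 1) + if t - 1 ∈ A then 0 else 1 := by
        conv_lhs => rw [hs]
        rw [po_succ]
      by_cases hlast : t - 1 ∈ A
      · rw [if_pos hlast] at hpu hpo
        have e4 : hh κ t A = κ := by
          unfold hh
          rw [if_neg hh0, if_pos hlast]
        rw [e4]
        by_cases hz : po A (t - 1) < pu A (t - 1)
        · rw [PKt_peak ht ht1 hlast hz, e5, if_neg (by omega)]
          have h6 : κ ^ (2 * ((PKt t A).card + 1)) = κ ^ (2 * (PKt t A).card) * κ ^ 2 := by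
            rw [mul_add, pow_add]
          rw [h6]
          apply le_of_eq
          ring
        · rw [PKt_pop ht (by tauto), e5]
          have h7 := hg (t - 1) (by omega)
          rw [if_pos (by omega)]
          apply le_of_eq
          ring
      · have e4 : hh κ t A = 1 := by
          unfold hh
          rw [if_neg hh0, if_neg hlast]
        rw [e4, PKt_pop ht (by tauto)]
        have h6 : hh κ (t + 1) A ≤ 1 := by
          rw [e5]
          split_ifs
          · exact hk1
          · exact le_rfl
        nlinarith [mul_le_mul_of_nonneg_left h6 hK.le]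
  · have e1 : ff κ (t + 1) (insert t A) = 0 := by
      unfold ff
      rw [if_neg (fun h => hg (good_insert.1 h))]
    have e2 : ff κ (t + 1) A = 0 := by
      unfold ff
      rw [if_neg (fun h => hg ((good_pop ht).1 h).1)]
    have e3 : ff κ t A = 0 := by
      unfold ff
      rw [if_neg hg]
    rw [e1, e2, e3]
    simp

end step

theorem total (κ : ℝ) (h0 : 0 < κ) (h1 : κ ≤ 1) (h2 : 1 ≤ κ + κ ^ 2) (t : ℕ) :
    ∑ A ∈ (range t).powerset, ff κ t A ≤ (1 + κ) ^ t * κ ^ 2 := by
  induction t with
  | zero =>
    rw [range_zero, powerset_empty, sum_singleton, pow_zero, one_mul]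
    have h3 : Good 0 ∅ := by
      intro s hs
      have : s = 0 := by omega
      subst this
      simp [po]
    unfold ff hh
    rw [if_pos h3]
    simp [PKt, pu, po]
  | succ t ih =>
    rw [range_add_one, sum_powerset_insert (by simp), ← sum_add_distrib]
    calc ∑ A ∈ (range t).powerset, (ff κ (t + 1) A + ff κ (t + 1) (insert t A))
        ≤ ∑ A ∈ (range t).powerset, (1 + κ) * ff κ t A :=
          sum_le_sum fun A hA => step h0 h1 h2 (mem_powerset.1 hA)
      _ = (1 + κ) * ∑ A ∈ (range t).powerset, ff κ t A := by rw [mul_sum]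
      _ ≤ (1 + κ) * ((1 + κ) ^ t * κ ^ 2) := mul_le_mul_of_nonneg_left ih (by linarith)
      _ = _ := by ring

theorem ff_nonneg {κ : ℝ} (h0 : 0 < κ) (t : ℕ) (A : Finset ℕ) : 0 ≤ ff κ t A := by
  unfold ff
  split_ifs
  · refine mul_nonneg (by positivity) ?_
    unfold hh
    split_ifs <;> positivity
  · exact le_rfl

theorem dyck : S_dyck := by
  classical
  intro n κ h0 h1 h2
  have h3 := total κ h0 h1 h2 (2 * n)
  have h4 : ∑ A ∈ dycks n, κ ^ (2 * (PK n A).card) * κ ^ 2 ≤
      ∑ A ∈ (range (2 * n)).powerset, ff κ (2 * n) A := by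
    calc ∑ A ∈ dycks n, κ ^ (2 * (PK n A).card) * κ ^ 2
        = ∑ A ∈ dycks n, ff κ (2 * n) A := by
          refine sum_congr rfl fun A hA => ?_
          rw [dycks, mem_filter] at hA
          obtain ⟨-, hA1, hA2, hA3⟩ := hA
          have h5 := pu_add_po A (2 * n)
          unfold ff hh
          rw [if_pos (show Good (2 * n) A from hA3), if_pos (by omega)]
          have h6 : PK n A = PKt (2 * n) A := by
            ext s
            simp only [PK, PKt, mem_filter, mem_range]
            constructor
            · rintro ⟨g1, g2, g3, g4⟩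
              refine ⟨g1, ?_, g2, g3, g4⟩
              by_contra hcon
              have h7 : 2 * n = s + 1 := by omega
              rw [h7, pu_succ, if_pos g2] at h5 hA2
              rw [po_succ, if_pos g2] at h5
              omega
            · rintro ⟨g1, g0, g2, g3, g4⟩
              exact ⟨g1, g2, g3, g4⟩
          rw [h6]
      _ ≤ _ := by
          refine sum_le_sum_of_subset_of_nonneg ?_ fun A _ _ => ff_nonneg h0 _ _
          unfold dycks
          exact filter_subset _ _
  rw [← sum_mul] at h4
  have h5 : (0 : ℝ) < κ ^ 2 := by positivity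
  exact le_of_mul_le_mul_right (h4.trans h3) h5

end Pool.Agent.Q144.SSq
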