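import Pool.Agent.H159.SSq.Stm

/-!
The growth rate of the number of shuffle squares exists (job SSQ-LIM of helper159).
-/

set_option autoImplicit false

namespace Pool.Agent.Q144.SSq

open Finset Pool.Agent.H159.SSq Filter

section cat

variable {n m : ℕ}

/-- concatenation of two embeddings -/
def cc (f : Fin n → Fin (2 * n)) (f' : Fin m → Fin (2 * m)) (i : Fin (n + m)) : Fin (2 * (n + m)) :=
  if h : i.1 < n then ⟨(f ⟨i.1, h⟩).1, by have := (f ⟨i.1, h⟩).2; omega⟩
  else ⟨2 * n + (f' ⟨i.1 - n, by have := i.2; omega⟩).1, by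
    have := (f' ⟨i.1 - n, by have := i.2; omega⟩).2; omega⟩

theorem cc_lt (f : Fin n → Fin (2 * n)) (f' : Fin m → Fin (2 * m)) (i : Fin (n + m)) (h : i.1 < n) :
    (cc f f' i).1 = (f ⟨i.1, h⟩).1 := by
  unfold cc
  rw [dif_pos h]

theorem cc_ge (f : Fin n → Fin (2 * n)) (f' : Fin m → Fin (2 * m)) (i : Fin (n + m)) (h : ¬ i.1 < n) :
    (cc f f' i).1 = 2 * n + (f' ⟨i.1 - n, by have := i.2; omega⟩).1 := by
  unfold cc
  rw [dif_neg h]

theorem cc_mono {f : Fin n → Fin (2 * n)} {f' : Fin m → Fin (2 * m)} (hf : StrictMono f)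
    (hf' : StrictMono f') : StrictMono (cc f f') := by
  intro i j hij
  rw [Fin.lt_def] at hij ⊢
  by_cases hj : j.1 < n
  · rw [cc_lt f f' i (by omega), cc_lt f f' j hj]
    exact hf (Fin.lt_def.2 hij)
  · rw [cc_ge f f' j hj]
    by_cases hi : i.1 < n
    · rw [cc_lt f f' i hi]
      have := (f ⟨i.1, hi⟩).2
      omega
    · rw [cc_ge f f' i hi]
      have h1 : (⟨i.1 - n, by have := i.2; omega⟩ : Fin m) < ⟨j.1 - n, by have := j.2; omega⟩ :=
        Fin.lt_def.2 (by simp only; omega)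
      have h2 := Fin.lt_def.1 (hf' h1)
      omega

/-- concatenation of words -/
def wc {k : ℕ} (w : Fin (2 * n) → Fin k) (w' : Fin (2 * m) → Fin k) (t : Fin (2 * (n + m))) : Fin k :=
  if h : t.1 < 2 * n then w ⟨t.1, h⟩ else w' ⟨t.1 - 2 * n, by have := t.2; omega⟩

theorem wc_cc {k : ℕ} (w : Fin (2 * n) → Fin k) (w' : Fin (2 * m) → Fin k)
    (f : Fin n → Fin (2 * n)) (f' : Fin m → Fin (2 * m)) (i : Fin (n + m)) :
    wc w w' (cc f f' i) = if h : i.1 < n then w (f ⟨i.1, h⟩) else w' (f' ⟨i.1 - n, by have := i.2; omega⟩) := by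
  by_cases h : i.1 < n
  · rw [dif_pos h]
    unfold wc
    have h1 := cc_lt f f' i h
    have h2 := (f ⟨i.1, h⟩).2
    rw [dif_pos (by omega)]
    congr 1
    exact Fin.ext h1
  · rw [dif_neg h]
    unfold wc
    have h1 := cc_ge f f' i h
    rw [dif_neg (by omega)]
    congr 1
    apply Fin.ext
    simp only
    omega

theorem ssq_wc {k : ℕ} {w : Fin (2 * n) → Fin k} {w' : Fin (2 * m) → Fin k} (hw : IsSSq w)
    (hw' : IsSSq w') : IsSSq (wc w w') := by
  obtain ⟨f, g, hf, hg, hfg, heq⟩ := hw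
  obtain ⟨f', g', hf', hg', hfg', heq'⟩ := hw'
  refine ⟨cc f f', cc g g', cc_mono hf hf', cc_mono hg hg', fun i j hij => ?_, fun i => ?_⟩
  · have h1 := congrArg Fin.val hij
    by_cases hi : i.1 < n
    · rw [cc_lt f f' i hi] at h1
      by_cases hj : j.1 < n
      · rw [cc_lt g g' j hj] at h1
        exact hfg _ _ (Fin.ext h1)
      · rw [cc_ge g g' j hj] at h1
        have := (f ⟨i.1, hi⟩).2
        omega
    · rw [cc_ge f f' i hi] at h1
      by_cases hj : j.1 < n
      · rw [cc_lt g g' j hj] at h1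
        have := (g ⟨j.1, hj⟩).2
        omega
      · rw [cc_ge g g' j hj] at h1
        refine hfg' ⟨i.1 - n, by have := i.2; omega⟩ ⟨j.1 - n, by have := j.2; omega⟩ (Fin.ext ?_)
        omega
  · rw [wc_cc, wc_cc]
    split_ifs with h
    · exact heq _
    · exact heq' _

theorem cnt_mul (k : ℕ) : cnt k n * cnt k m ≤ cnt k (n + m) := by
  unfold cnt
  rw [← Nat.card_prod]
  refine Nat.card_le_card_of_injective
    (fun p : {w : Fin (2 * n) → Fin k // IsSSq w} × {w : Fin (2 * m) → Fin k // IsSSq w} =>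
      (⟨wc p.1.1 p.2.1, ssq_wc p.1.2 p.2.2⟩ : {w : Fin (2 * (n + m)) → Fin k // IsSSq w})) ?_
  rintro ⟨⟨w, hw⟩, ⟨w', hw'⟩⟩ ⟨⟨v, hv⟩, ⟨v', hv'⟩⟩ h
  have h1 : wc w w' = wc v v' := congrArg Subtype.val h
  have h2 : w = v := by
    funext t
    have h3 := congrFun h1 ⟨t.1, by have := t.2; omega⟩
    unfold wc at h3
    rw [dif_pos t.2, dif_pos t.2] at h3
    exact h3
  have h4 : w' = v' := by
    funext t
    have h3 := congrFun h1 ⟨2 * n + t.1, by have := t.2; omega⟩
    unfold wc at h3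
    rw [dif_neg (by simp), dif_neg (by simp)] at h3
    have e : (⟨2 * n + t.1 - 2 * n, by have := t.2; omega⟩ : Fin (2 * m)) = t := Fin.ext (by simp)
    simp only at h3
    rw [e] at h3
    exact h3
  subst h2 h4
  rfl

end cat

theorem cnt_pos (k n : ℕ) (hk : 1 ≤ k) : 1 ≤ cnt k n := by
  unfold cnt
  rw [Nat.one_le_iff_ne_zero, ← Nat.pos_iff_ne_zero, Nat.card_pos_iff]
  refine ⟨⟨fun _ => ⟨0, hk⟩, fun i => ⟨i.1, by have := i.2; omega⟩, fun i => ⟨n + i.1, by
    have := i.2; omega⟩, ?_, ?_, ?_, fun _ => rfl⟩, inferInstance⟩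
  · intro i j hij
    exact hij
  · intro i j hij
    rw [Fin.lt_def] at hij ⊢
    simp only
    omega
  · intro i j hij
    have h1 := congrArg Fin.val hij
    simp only at h1
    have := i.2
    omega

theorem cnt_le (k n : ℕ) : cnt k n ≤ k ^ (2 * n) := by
  unfold cnt
  refine (Nat.card_le_card_of_injective (Subtype.val) Subtype.val_injective).trans ?_
  rw [Nat.card_eq_fintype_card]
  simp

theorem lim : S_lim := by
  intro k hk
  have hpos : ∀ n, (0 : ℝ) < cnt k n := fun n => by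
    have := cnt_pos k n hk
    exact_mod_cast this
  let u : ℕ → ℝ := fun n => - Real.log (cnt k n)
  have hu : Subadditive u := by
    intro m n
    have h1 : ((cnt k m * cnt k n : ℕ) : ℝ) ≤ cnt k (m + n) := by exact_mod_cast cnt_mul (n := m) (m := n) k
    rw [Nat.cast_mul] at h1
    have h2 := Real.log_le_log (mul_pos (hpos m) (hpos n)) h1
    rw [Real.log_mul (hpos m).ne' (hpos n).ne'] at h2
    simp only [u]
    linarith
  have hlk : 0 ≤ Real.log k := Real.log_natCast_nonneg k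
  have hb : BddBelow (Set.range fun n => u n / n) := by
    refine ⟨-(2 * Real.log k), ?_⟩
    rintro _ ⟨n, rfl⟩
    rcases Nat.eq_zero_or_pos n with h0 | h0
    · subst h0
      simp only [Nat.cast_zero, div_zero]
      linarith
    · have hn : (0 : ℝ) < n := by exact_mod_cast h0
      simp only [u]
      rw [le_div_iff₀ hn]
      have h1 : (cnt k n : ℝ) ≤ (k : ℝ) ^ (2 * n) := by exact_mod_cast cnt_le k n
      have h2 := Real.log_le_log (hpos n) h1
      rw [Real.log_pow] at h2
      push_cast at h2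
      linarith
  have h1 := (hu.tendsto_lim hb).neg
  refine ⟨Real.exp (-hu.lim), ?_⟩
  refine ((Real.continuous_exp.tendsto _).comp h1).congr' ?_
  filter_upwards [eventually_ge_atTop 1] with n hn
  have hn' : (0 : ℝ) < n := by exact_mod_cast hn
  simp only [Function.comp, u]
  rw [Real.rpow_def_of_pos (hpos n)]
  congr 1
  field_simp

end Pool.Agent.Q144.SSq
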