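import Pool.Agent.H159.SSq.Stm

/-!
Lower bound for the number of words of one parse, and words with a parse are shuffle squares
(job SSQ-LOW of helper159).
-/

set_option autoImplicit false

namespace Pool.Agent.Q144.SSq

open Finset Pool.Agent.H159.SSq

section basic

variable {n : ℕ} {A : Finset ℕ}

theorem card_A (h : A ⊆ range (2 * n)) (h2 : pu A (2 * n) = n) : A.card = n := by
  unfold pu at h2
  rw [← h2]
  congr 1
  ext x
  simp only [mem_filter]
  exact ⟨fun hx => ⟨h hx, hx⟩, fun hx => hx.2⟩

theorem po_n (h2 : pu A (2 * n) = n) : po A (2 * n) = n := by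
  have := pu_add_po A (2 * n)
  omega

theorem pu_inj {s s' : ℕ} (hs : s ∈ A) (hs' : s' ∈ A) (h : pu A s = pu A s') : s = s' := by
  rcases lt_trichotomy s s' with h1 | h1 | h1
  · have := pu_lt A hs h1
    omega
  · exact h1
  · have := pu_lt A hs' h1
    omega

end basic

theorem sq : S_sq := by
  classical
  intro k n _ w A hA hw
  obtain ⟨hA1, hA2, hA3⟩ := hA
  have hpo := po_n hA2
  have hw' : Can A w := (mem_filter.1 hw).2
  choose f hf1 hf2 hf3 using fun i : Fin n => exists_push A (t := 2 * n) (i := i.1) (by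
    have := i.2
    omega)
  choose g hg1 hg2 hg3 using fun i : Fin n => exists_pop A (t := 2 * n) (i := i.1) (by
    have := i.2
    omega)
  refine ⟨fun i => ⟨f i, hf1 i⟩, fun i => ⟨g i, hg1 i⟩, ?_, ?_, ?_, ?_⟩
  · intro i j hij
    rw [Fin.lt_def] at hij ⊢
    by_contra hcon
    have h1 := pu_mono A (s := f j) (t := f i) (not_lt.1 hcon)
    rw [hf3, hf3] at h1
    omega
  · intro i j hij
    rw [Fin.lt_def] at hij ⊢
    by_contra hcon
    have h1 := po_mono A (s := g j) (t := g i) (not_lt.1 hcon)
    rw [hg3, hg3] at h1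
    omega
  · intro i j hij
    have h1 : f i = g j := congrArg Fin.val hij
    exact hg2 j (h1 ▸ hf2 i)
  · intro i
    have h1 := hw'.1 (f i) (g i) (hf1 i) (hg1 i) ⟨hf2 i, hg2 i, by rw [hf3, hg3]⟩
    unfold H159.SSq.ext at h1
    rw [dif_pos (hf1 i), dif_pos (hg1 i)] at h1
    exact h1

section words

variable {k : ℕ}

open Classical in
/-- the word given by the letters at the pushes -/
noncomputable def WW (A P : Finset ℕ) (m : ℕ → ZMod k) (t : ℕ) : ZMod k :=
  if h : po A t < pu A t then
    (if t ∈ A then m t else 0) +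
      (if t ∉ A ∨ t ∈ P then WW A P m (Classical.choose (exists_push A h)) else 0)
  else (if t ∈ A then m t else 0)
termination_by t
decreasing_by exact (Classical.choose_spec (exists_push A h)).1

/-- the push at the front -/
theorem WW_eq {A P : Finset ℕ} {t x : ℕ} (m : ℕ → ZMod k) (h : po A t < pu A t) (hx : x ∈ A)
    (hxt : pu A x = po A t) : WW A P m t = (if t ∈ A then m t else 0) +
      (if t ∉ A ∨ t ∈ P then WW A P m x else 0) := by
  rw [WW, dif_pos h]
  obtain ⟨h1, h2, h3⟩ := Classical.choose_spec (exists_push A h)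
  have h4 : Classical.choose (exists_push A h) = x := pu_inj h2 hx (by rw [h3, hxt])
  rw [h4]

theorem WW_eq' {A P : Finset ℕ} {t : ℕ} (m : ℕ → ZMod k) (h : ¬ po A t < pu A t) :
    WW A P m t = (if t ∈ A then m t else 0) := by
  rw [WW, dif_neg h]

end words

theorem low : S_low := by
  classical
  intro k n _ A hA
  have hdy := hA.dy
  obtain ⟨hA1, hA2, hA3⟩ := hA
  have hcard := card_A hA1 hA2
  have hPA : PK n A ⊆ A := fun t ht => by
    rw [PK, mem_filter] at ht
    exact ht.2.1
  refine ⟨(card_le_card hPA).trans hcard.le, ?_⟩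
  -- the words
  let mm : (A → ZMod k) → ℕ → ZMod k := fun m t => if h : t ∈ A then m ⟨t, h⟩ else 0
  let dom : Finset (A → ZMod k) := Fintype.piFinset fun t : A => if t.1 ∈ PK n A then univ.erase 0 else univ
  have hdom : dom.card = k ^ (n - (PK n A).card) * (k - 1) ^ (PK n A).card := by
    simp only [dom]
    rw [Fintype.card_piFinset]
    have h1 : ∀ t : A, (if t.1 ∈ PK n A then (univ : Finset (ZMod k)).erase 0 else univ).card =
        if t.1 ∈ PK n A then k - 1 else k := by
      intro t
      split_ifs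
      · rw [card_erase_of_mem (mem_univ _), card_univ, ZMod.card]
      · rw [card_univ, ZMod.card]
    rw [Finset.prod_congr rfl fun t _ => h1 t,
      Finset.prod_coe_sort A (fun t => if t ∈ PK n A then k - 1 else k), Finset.prod_ite,
      Finset.prod_const, Finset.prod_const]
    have h2 : A.filter (fun t => t ∈ PK n A) = PK n A := by
      ext t
      simp only [mem_filter]
      exact ⟨fun h => h.2, fun h => ⟨hPA h, h⟩⟩
    have h3 : (A.filter (fun t => t ∉ PK n A)).card = n - (PK n A).card := by
      have h4 : A.filter (fun t => t ∉ PK n A) = A \ PK n A := by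
        ext t
        simp
      rw [h4, card_sdiff_of_subset hPA, hcard]
    rw [h2, h3, mul_comm]
  rw [← hdom]
  -- pops have a matched push
  have hpop : ∀ t, t < 2 * n → t ∉ A → po A t < pu A t := by
    intro t ht htA
    have h1 := hdy.2.2 (t + 1) (by omega)
    rw [po_succ, pu_succ, if_neg htA, if_neg htA] at h1
    omega
  refine card_le_card_of_injOn (fun m => fun t : Fin (2 * n) => WW A (PK n A) (mm m) t.1) ?_ ?_
  · intro m hm
    have hm' := (Fintype.mem_piFinset.1 hm)
    rw [mem_coe, Cw, mem_filter]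
    refine ⟨mem_univ _, ?_, ?_⟩
    · rintro s t hs ht ⟨h1, h2, h3⟩
      unfold H159.SSq.ext
      rw [dif_pos hs, dif_pos ht]
      simp only
      rw [WW_eq (t := t) (mm m) (hpop t ht h2) h1 h3, if_neg h2, if_pos (Or.inl h2), zero_add]
    · intro t ht ht1
      have htP := ht
      rw [PK, mem_filter, mem_range] at ht
      obtain ⟨h1, h2, h3, h4⟩ := ht
      unfold H159.SSq.ext
      rw [dif_pos h1, dif_pos ht1]
      simp only
      obtain ⟨x, hx1, hx2, hx3⟩ := exists_push A h4
      have h5 : po A (t + 1) = po A t := by rw [po_succ, if_pos h2, add_zero]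
      rw [WW_eq (t := t) (mm m) h4 hx2 hx3, WW_eq (t := t + 1) (mm m) (hpop _ ht1 h3) hx2 (by rw [h5, hx3]),
        if_pos h2, if_pos (Or.inr htP), if_neg h3, if_pos (Or.inl h3), zero_add]
      have h6 := hm' ⟨t, h2⟩
      rw [if_pos htP, mem_erase] at h6
      have h7 : mm m t = m ⟨t, h2⟩ := by
        simp only [mm]
        rw [dif_pos h2]
      rw [h7]
      intro h8
      exact h6.1 (by linear_combination h8)
  · intro m _ m' _ heq
    funext ⟨t, ht⟩
    have ht2 : t < 2 * n := mem_range.1 (hA1 ht)
    have key : ∀ s, s < 2 * n → WW A (PK n A) (mm m) s = WW A (PK n A) (mm m') s :=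
      fun s hs => congrFun heq ⟨s, hs⟩
    have e1 : ∀ m : A → ZMod k, mm m t = m ⟨t, ht⟩ := fun m => by
      simp only [mm]
      rw [dif_pos ht]
    have h1 := key t ht2
    by_cases hlt : po A t < pu A t
    · obtain ⟨x, hx1, hx2, hx3⟩ := exists_push A hlt
      rw [WW_eq (t := t) (mm m) hlt hx2 hx3, WW_eq (t := t) (mm m') hlt hx2 hx3, if_pos ht,
        if_pos ht, key x (by omega)] at h1
      have h2 := add_right_cancel h1
      rw [e1, e1] at h2
      exact h2
    · rw [WW_eq' (mm m) hlt, WW_eq' (mm m') hlt, if_pos ht, if_pos ht, e1, e1] at h1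
      exact h1

end Pool.Agent.Q144.SSq
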